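import Pool.Agent.Helper30.SY.St2

/-!
# Project SY, module CHV: a good vertex by averaging
-/

set_option autoImplicit false

namespace Pool.Agent.Helper63.SY

open Finset Pool.Agent.Helper30.SY

variable {n : ℕ}

/-- The number of missing pairs at `v`. -/
private def mv (s : Fin n → Fin n → ℤ) (v : Fin n) : ℕ :=
  (univ.filter fun x => v ≠ x ∧ s v x = 0).card

private theorem mis_eq (s : Fin n → Fin n → ℤ) : mis s = ∑ v, mv s v := by
  unfold mis mv
  simp only [Finset.card_filter]
  rw [Fintype.sum_prod_type]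

/-- The number of triples `(a, b, c)` with `WT s v a b c`. -/
private def wt1 (s : Fin n → Fin n → ℤ) (v : Fin n) : ℕ :=
  ∑ a, ∑ b, ∑ c, (if WT s v a b c then 1 else 0)

/-- The number of triples `(a, b, c)` with `LT' s v a b c`. -/
private def lt1 (s : Fin n → Fin n → ℤ) (v : Fin n) : ℕ :=
  ∑ a, ∑ b, ∑ c, (if LT' s v a b c then 1 else 0)

private theorem c3_on (s : Fin n → Fin n → ℤ) (v : Fin n) : c3 s (ON s v) = wt1 s v := by
  have h : c3 s (ON s v) =
      (univ.filter fun p : Fin n × Fin n × Fin n => WT s v p.1 p.2.1 p.2.2).card := by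
    unfold c3
    congr 1
    ext p
    simp only [ON, mem_filter, mem_product, mem_univ, true_and, WT]
    tauto
  rw [h, Finset.card_filter, Fintype.sum_prod_type]
  unfold wt1
  refine Finset.sum_congr rfl fun a _ => ?_
  rw [Fintype.sum_prod_type]

private theorem c3_in (s : Fin n → Fin n → ℤ) (v : Fin n) : c3 s (IN s v) = lt1 s v := by
  have h : c3 s (IN s v) =
      (univ.filter fun p : Fin n × Fin n × Fin n => LT' s v p.1 p.2.1 p.2.2).card := by
    unfold c3
    congr 1
    ext p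
    simp only [IN, mem_filter, mem_product, mem_univ, true_and, LT']
    tauto
  rw [h, Finset.card_filter, Fintype.sum_prod_type]
  unfold lt1
  refine Finset.sum_congr rfl fun a _ => ?_
  rw [Fintype.sum_prod_type]

private theorem wv_eq (s : Fin n → Fin n → ℤ) (v : Fin n) :
    wv s v = ∑ u, ∑ a, ∑ w, (if WT s u v a w then 1 else 0) := by
  unfold wv
  rw [Finset.card_filter, Fintype.sum_prod_type]
  refine Finset.sum_congr rfl fun a _ => ?_
  rw [Fintype.sum_prod_type]

private theorem wv_sum (s : Fin n → Fin n → ℤ) : ∑ v, wv s v = ∑ v, wt1 s v := by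
  simp only [wv_eq, wt1]
  exact Finset.sum_comm

private theorem nW_eq (s : Fin n → Fin n → ℤ) :
    nW s = ∑ v, ((wt1 s v : ℝ) + (lt1 s v : ℝ)) := by
  unfold nW wt1 lt1
  refine Finset.sum_congr rfl fun v _ => ?_
  push_cast
  simp only [Finset.sum_add_distrib]

private theorem in_eq {s : Fin n → Fin n → ℤ} (hc : Circ s) (v : Fin n) :
    IN s v = univ.filter fun x => s v x = -1 := by
  unfold IN
  ext x
  simp only [mem_filter, mem_univ, true_and]
  rw [hc.sk x v]
  omega

private theorem card_sum {s : Fin n → Fin n → ℤ} (hc : Circ s) (v : Fin n) :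
    (ON s v).card + (IN s v).card + mv s v + 1 = n := by
  have h1 : (univ : Finset (Fin n)).card = n := by simp
  have hvv : s v v = 0 := by
    have := hc.sk v v
    omega
  have h2 : (ON s v).card + (IN s v).card + mv s v + 1 =
      ∑ x : Fin n, ((if s v x = 1 then 1 else 0) + (if s v x = -1 then 1 else 0) +
        (if v ≠ x ∧ s v x = 0 then 1 else 0) + (if v = x then 1 else 0)) := by
    rw [Finset.sum_add_distrib, Finset.sum_add_distrib, Finset.sum_add_distrib, in_eq hc]
    unfold ON mv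
    simp only [Finset.card_filter]
    congr 1
    simp
  rw [h2]
  calc _ = ∑ x : Fin n, 1 := ?_
    _ = n := by simp
  refine Finset.sum_congr rfl fun x _ => ?_
  by_cases hx : v = x
  · subst hx
    simp [hvv]
  · rcases hc.v1 v x with h | h | h <;> simp [h, hx]

private theorem card_eq {s : Fin n → Fin n → ℤ} (hc : Circ s) (v : Fin n) :
    (ON s v).card = (IN s v).card := by
  have h2 : ((ON s v).card : ℤ) - ((IN s v).card : ℤ) = ∑ x : Fin n, s v x := by
    rw [in_eq hc]
    unfold ON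
    simp only [Finset.card_filter]
    push_cast
    rw [← Finset.sum_sub_distrib]
    refine Finset.sum_congr rfl fun x _ => ?_
    rcases hc.v1 v x with h | h | h <;> simp [h]
  rw [hc.row v] at h2
  omega

/-- **Module CHV.** -/
theorem hCHV : StCHV := by
  intro n s ξ hn hξ hc hm hw
  have hn0 : (0 : ℝ) < n := by exact_mod_cast hn
  have key : ∑ v : Fin n, ((mv s v : ℝ) * (n : ℝ) ^ 2 + ((wt1 s v : ℝ) + (lt1 s v : ℝ)) +
      (wv s v : ℝ)) ≤ ∑ _v : Fin n, 3 * ξ * (n : ℝ) ^ 3 := by
    rw [Finset.sum_add_distrib, Finset.sum_add_distrib, ← nW_eq, ← Finset.sum_mul]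
    have h1 : (∑ v : Fin n, (mv s v : ℝ)) = mis s := by
      rw [mis_eq]
      push_cast
      rfl
    have h2 : (∑ v : Fin n, (wv s v : ℝ)) ≤ nW s := by
      have h3 : (∑ v : Fin n, (wv s v : ℝ)) = ∑ v : Fin n, (wt1 s v : ℝ) := by
        exact_mod_cast wv_sum s
      rw [h3, nW_eq]
      refine Finset.sum_le_sum fun v _ => ?_
      have : (0 : ℝ) ≤ (lt1 s v : ℝ) := Nat.cast_nonneg _
      linarith
    rw [h1, Finset.sum_const, Finset.card_univ, Fintype.card_fin, nsmul_eq_mul]
    have h4 : (mis s : ℝ) * (n : ℝ) ^ 2 ≤ ξ * (n : ℝ) ^ 2 * (n : ℝ) ^ 2 :=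
      mul_le_mul_of_nonneg_right hm (by positivity)
    nlinarith [h4, h2, hw]
  have : Nonempty (Fin n) := ⟨⟨0, hn⟩⟩
  obtain ⟨v, -, hv⟩ := Finset.exists_le_of_sum_le Finset.univ_nonempty key
  have a1 : (0 : ℝ) ≤ (mv s v : ℝ) * (n : ℝ) ^ 2 := by positivity
  have a2 : (0 : ℝ) ≤ (wt1 s v : ℝ) := Nat.cast_nonneg _
  have a3 : (0 : ℝ) ≤ (lt1 s v : ℝ) := Nat.cast_nonneg _
  have a4 : (0 : ℝ) ≤ (wv s v : ℝ) := Nat.cast_nonneg _
  refine ⟨v, ?_, card_eq hc v, ?_, ?_, ?_⟩
  · have h1 : (mv s v : ℝ) * (n : ℝ) ^ 2 ≤ (3 * ξ * n) * (n : ℝ) ^ 2 := by nlinarith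
    have h2 : (mv s v : ℝ) ≤ 3 * ξ * n := le_of_mul_le_mul_right h1 (by positivity)
    have h3 : ((ON s v).card : ℝ) + (IN s v).card + mv s v + 1 = n := by
      exact_mod_cast card_sum hc v
    linarith
  · rw [c3_on]
    linarith
  · rw [c3_in]
    linarith
  · linarith

end Pool.Agent.Helper63.SY
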